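import Pool.Agent.Helper53.CTR.Goals

/-!
# Project CTR (MP_8b4d68_lc), packet CTR-KB (helper24)
-/

namespace Pool.Agent.Helper24.CTR

open Pool.Agent.Helper1.TE (Gad app Ch cif)
open Pool.Agent.Helper53.CTR
open Finset

variable {Z : Type}

theorem shl_V {g : Gad Z} (hg : OK6 g) (l : List ℕ) (hl : ∀ a ∈ l, a < g.K) :
    ∀ z, g.V z → g.V (shl g l z) := by
  induction l with
  | nil => intro z hz; exact hz
  | cons a l ih =>
    intro z hz
    have h1 : shl g (a :: l) z = shl g l (g.sh a z) := rfl
    rw [h1]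
    exact ih (fun b hb => hl b (List.mem_cons_of_mem _ hb)) _
      (hg.sh_V a (hl a List.mem_cons_self) z hz)

theorem app_V {g : Gad Z} (hg : OK6 g) {tst : ℕ → ℕ} {T v : ℕ} {z z' : Z} (hv : v < g.K)
    (hz : g.V z) (h : app g tst T v z = some z') : g.V z' := by
  unfold app at h
  split_ifs at h with h1 h2 h3
  · cases h; exact hz
  · cases h; exact hg.hd_V v hv z hz
  · exact hg.un_V v hv z z' hz h

theorem seg_lt {K : ℕ} {r : ℕ → ℕ → ℕ → ℕ} {bot : ℕ → ℕ → ℕ} (hb : ∀ w y, bot w y < K) :
    ∀ u v x, seg r bot u v x < K := by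
  intro u
  induction u with
  | zero => intro v x; exact hb v x
  | succ u ih => intro v x; exact ih _ _

theorem blk_lt {K : ℕ} {r : ℕ → ℕ → ℕ → ℕ} (hr : ∀ v x y, r v x y < K) (q c : ℕ) :
    ∀ m v x, blk r q c m v x < K := by
  intro m
  cases m with
  | zero => intro v x; exact hr _ _ _
  | succ m => intro v x; exact seg_lt (fun w y => hr _ _ _) _ _ _

section
variable (g : Gad Z) (tst : ℕ → ℕ) (r : ℕ → ℕ → ℕ → ℕ) (q c : ℕ)

theorem run5 (hE : Elem) (hK : 1 ≤ g.K) (e n : ℕ) (s s' : (ℕ → Z) × ℕ) :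
    Run g tst r q c (5, 0, 0, 0, e, 1) n s s' ↔
      ∃ a < g.K, s' = (s.1, s.2 * 2 ^ c + a % 2 ^ c) := by
  have h := hE.1 g tst r q c ((5, 0, 0, 0, e, 1) : De) n s s' hK (Or.inr (show (5 : ℕ) ≠ 0 by decide))
  rw [h]
  constructor
  · rintro ⟨a, ha, y, hy, h1⟩
    refine ⟨a, ha, ?_⟩
    have h2 : exec g tst r c ((5, 0, 0, 0, e, 1) : De) a y s =
      some (s.1, s.2 * 2 ^ c + a % 2 ^ c) := rfl
    rw [h2] at h1
    exact (Option.some.inj h1).symm
  · rintro ⟨a, ha, h1⟩
    exact ⟨a, ha, 0, hK, by rw [h1]; rfl⟩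

theorem run7 (hE : Elem) (hK : 1 ≤ g.K) (e n : ℕ) (s s' : (ℕ → Z) × ℕ) :
    Run g tst r q c (7, 0, 0, 0, e, 2) n s s' ↔ s' = (s.1, s.2 / 2 ^ c) := by
  have h := hE.1 g tst r q c ((7, 0, 0, 0, e, 2) : De) n s s' hK (Or.inr (show (7 : ℕ) ≠ 0 by decide))
  rw [h]
  constructor
  · rintro ⟨a, ha, y, hy, h1⟩
    have h2 : exec g tst r c ((7, 0, 0, 0, e, 2) : De) a y s = some (s.1, s.2 / 2 ^ c) := rfl
    rw [h2] at h1
    exact (Option.some.inj h1).symm
  · intro h1
    exact ⟨0, hK, 0, hK, by rw [h1]; rfl⟩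

theorem run1 (hE : Elem) (hK : 1 ≤ g.K) (n : ℕ) (s s' : (ℕ → Z) × ℕ) :
    Run g tst r q c idle n s s' ↔ s' = s := by
  have h := hE.1 g tst r q c idle n s s' hK (Or.inr (by decide))
  rw [h]
  constructor
  · rintro ⟨a, ha, y, hy, h1⟩
    have h2 : exec g tst r c idle a y s = some s := rfl
    rw [h2] at h1
    exact (Option.some.inj h1).symm
  · intro h1
    exact ⟨0, hK, 0, hK, by rw [h1]; rfl⟩

/-- the test step -/
theorem run6 (hE : Elem) (hK : 1 ≤ g.K) (e f v i T n : ℕ) (s s' : (ℕ → Z) × ℕ) :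
    Run g tst r q c (6, e, f, v, i, T) n s s' ↔
      ∃ a < g.K, ∃ y < g.K, a % 2 ^ c = s.2 % 2 ^ c ∧ ∃ z,
        app g tst T (r v a y) (s.1 i) = some z ∧
        s' = (Function.update (Function.update (Function.update s.1
          e (shl g (List.replicate 6 a) (s.1 e)))
          f (shl g (List.replicate 6 y) (s.1 f))) i z, s.2) := by
  have h := hE.1 g tst r q c ((6, e, f, v, i, T) : De) n s s' hK (Or.inr (show (6 : ℕ) ≠ 0 by decide))
  rw [h]
  have h2 : ∀ a y, exec g tst r c ((6, e, f, v, i, T) : De) a y s =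
      (if a % 2 ^ c = s.2 % 2 ^ c then
      (app g tst T (r v a y) (s.1 i)).map fun z =>
        (Function.update (Function.update (Function.update s.1
          e (shl g (List.replicate 6 a) (s.1 e)))
          f (shl g (List.replicate 6 y) (s.1 f))) i z, s.2)
      else none) := fun a y => rfl
  constructor
  · rintro ⟨a, ha, y, hy, h1⟩
    rw [h2] at h1
    split_ifs at h1 with h3
    obtain ⟨z, hz, hz'⟩ := Option.map_eq_some_iff.mp h1
    exact ⟨a, ha, y, hy, h3, z, hz, hz'.symm⟩
  · rintro ⟨a, ha, y, hy, h3, z, hz, hz'⟩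
    refine ⟨a, ha, y, hy, ?_⟩
    rw [h2, if_pos h3, hz, hz']
    rfl

end

theorem phB0 (q p v i T : ℕ) : phB q p v i T 0 = (5, 0, 0, 0, 2 * q + 3, 1) := rfl
theorem phB1 (q p v i T : ℕ) : phB q p v i T 1 = nod (2 * v) (2 * q + 1 + p) 1 := rfl
theorem phB2 (q p v i T : ℕ) : phB q p v i T 2 = (6, 2 * q, 2 * q + 1 + p, v, i, T) := rfl
theorem phB3 (q p v i T : ℕ) : phB q p v i T 3 = nod (2 * v) (2 * q + 1 + p) 2 := rfl
theorem phB4 (q p v i T : ℕ) : phB q p v i T 4 = (7, 0, 0, 0, 2 * q + 3, 2) := rfl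
theorem phB5 (q p v i T : ℕ) : phB q p v i T 5 = idle := rfl
theorem phB6 (q p v i T : ℕ) : phB q p v i T 6 = idle := rfl
theorem phB7 (q p v i T : ℕ) : phB q p v i T 7 = idle := rfl
theorem phB8 (q p v i T : ℕ) : phB q p v i T 8 = idle := rfl

/-- the registers after the test step and the second visit -/
theorem regs (C : ℕ → Z) (q B i : ℕ) (z h0 w w2 : Z) (hiB : i ≠ B) (hi : i ≠ 2 * q)
    (hB : 2 * q ≠ B) :
    Function.update (Function.update (Function.update (Function.update
      (Function.update C B h0) (2 * q) w) B w2) i z) B (C B) =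
    Function.update (Function.update C i z) (2 * q) w := by
  funext j
  by_cases h1 : j = B
  · subst h1
    rw [Function.update_self, Function.update_of_ne hB.symm, Function.update_of_ne hiB.symm]
  · rw [Function.update_of_ne h1]
    by_cases h2 : j = i
    · subst h2
      rw [Function.update_self, Function.update_of_ne hi, Function.update_self]
    · rw [Function.update_of_ne h2, Function.update_of_ne h1]
      by_cases h3 : j = 2 * q
      · subst h3
        rw [Function.update_self, Function.update_self]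
      · rw [Function.update_of_ne h3, Function.update_of_ne h1, Function.update_of_ne h3,
          Function.update_of_ne h2]

theorem gKB : GoalKB := by
  intro hBl hEl Z g hg tst r q c m hr hc hVX
  have hK := hg.K_pos
  have hp2 : 0 < 2 ^ c := Nat.two_pow_pos c
  set B := 2 * q + 1 + m % 2 with hBdef
  have hB : 2 * q ≠ B := by omega
  have hiB : ∀ i, (i < 2 * (q - 0) ∨ i = 2 * q + 1 + (m + 1) % 2) → i ≠ B ∧ i ≠ 2 * q := by
    intro i hi
    rcases hi with hi | hi <;> constructor <;> omega
  have hpush : ∀ A a : ℕ, (A * 2 ^ c + a % 2 ^ c) % 2 ^ c = a % 2 ^ c := by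
    intro A a
    rw [Nat.add_comm, Nat.add_mul_mod_self_right, Nat.mod_mod]
  have hpop : ∀ A a : ℕ, (A * 2 ^ c + a % 2 ^ c) / 2 ^ c = A := by
    intro A a
    rw [Nat.add_comm, Nat.add_mul_div_right _ _ hp2,
      Nat.div_eq_of_lt (Nat.mod_lt _ hp2), Nat.zero_add]
  have hph : ∀ v i T d, sub q (nod v i T) ((q + 2) * m) d = phB q (m % 2) v i T d :=
    fun v i T d => hEl.2.2.1 q m v i T d
  have hVhd : ∀ (C : ℕ → Z) (y0 : ℕ), y0 < g.K → (∀ j, g.V (C j)) →
      ∀ j, g.V (Function.update C B (g.hd y0 (C B)) j) := by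
    intro C y0 hy0 hC j
    by_cases hj : j = B
    · rw [hj, Function.update_self]
      exact hg.hd_V y0 hy0 _ (hC _)
    · rw [Function.update_of_ne hj]
      exact hC j
  have hVC2 : ∀ (C : ℕ → Z) (y0 a y i : ℕ) (z : Z), y0 < g.K → a < g.K → y < g.K → g.V z →
      (∀ j, g.V (C j)) → ∀ j, g.V (Function.update (Function.update (Function.update
        (Function.update C B (g.hd y0 (C B))) (2 * q)
          (shl g (List.replicate 6 a) (C (2 * q))))
        B (shl g (List.replicate 6 y) (g.hd y0 (C B)))) i z j) := by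
    intro C y0 a y i z hy0 ha hy hz hC j
    by_cases h1 : j = i
    · rw [h1, Function.update_self]; exact hz
    rw [Function.update_of_ne h1]
    by_cases h2 : j = B
    · rw [h2, Function.update_self]
      apply shl_V hg
      · intro b hb
        rw [List.eq_of_mem_replicate hb]
        exact hy
      · exact hg.hd_V y0 hy0 _ (hC _)
    rw [Function.update_of_ne h2]
    by_cases h3 : j = 2 * q
    · rw [h3, Function.update_self]
      apply shl_V hg
      · intro b hb
        rw [List.eq_of_mem_replicate hb]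
        exact ha
      · exact hC _
    rw [Function.update_of_ne h3, Function.update_of_ne h2]
    exact hC j
  constructor
  · -- exactness
    intro v i T C A s' hC hi hrun
    obtain ⟨hiB', hi2⟩ := hiB i hi
    rw [Nat.add_zero, hBl] at hrun
    obtain ⟨f, hf0, hf9, hf⟩ := hrun
    have h0 : Run g tst r q c (sub q (nod v i T) ((q + 2) * m) 0) ((q + 2) * m) (f 0) (f 1) :=
      hf 0 (by norm_num)
    have h1 : Run g tst r q c (sub q (nod v i T) ((q + 2) * m) 1) ((q + 2) * m) (f 1) (f 2) :=
      hf 1 (by norm_num)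
    have h2 : Run g tst r q c (sub q (nod v i T) ((q + 2) * m) 2) ((q + 2) * m) (f 2) (f 3) :=
      hf 2 (by norm_num)
    have h3 : Run g tst r q c (sub q (nod v i T) ((q + 2) * m) 3) ((q + 2) * m) (f 3) (f 4) :=
      hf 3 (by norm_num)
    have h4 : Run g tst r q c (sub q (nod v i T) ((q + 2) * m) 4) ((q + 2) * m) (f 4) (f 5) :=
      hf 4 (by norm_num)
    have h5 : Run g tst r q c (sub q (nod v i T) ((q + 2) * m) 5) ((q + 2) * m) (f 5) (f 6) :=
      hf 5 (by norm_num)
    have h6 : Run g tst r q c (sub q (nod v i T) ((q + 2) * m) 6) ((q + 2) * m) (f 6) (f 7) :=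
      hf 6 (by norm_num)
    have h7 : Run g tst r q c (sub q (nod v i T) ((q + 2) * m) 7) ((q + 2) * m) (f 7) (f 8) :=
      hf 7 (by norm_num)
    have h8 : Run g tst r q c (sub q (nod v i T) ((q + 2) * m) 8) ((q + 2) * m) (f 8) (f 9) :=
      hf 8 (by norm_num)
    rw [hph, phB0, hf0, run5 g tst r q c hEl hK] at h0
    obtain ⟨t0, ht0, e1⟩ := h0
    rw [hph, phB1, e1] at h1
    obtain ⟨z1, hz1, e2⟩ := (hVX (2 * v) 1 C _ _ hC).mp h1
    rw [hpush] at hz1
    set y0 := blk r q c m (2 * v) (t0 % 2 ^ c) with hy0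
    have hy0K : y0 < g.K := blk_lt hr q c m _ _
    have hz1' : z1 = g.hd y0 (C B) := by
      have h9 : app g tst 1 y0 (C (2 * q + 1 + m % 2)) = some (g.hd y0 (C B)) := rfl
      rw [h9] at hz1
      exact (Option.some.inj hz1).symm
    subst hz1'
    rw [hph, phB2, e2, run6 g tst r q c hEl hK] at h2
    obtain ⟨a, ha, y, hy, hay, z, hz, e3⟩ := h2
    simp only [← hBdef] at hay hz e3
    rw [hpush] at hay
    rw [Function.update_of_ne hiB'] at hz
    rw [Function.update_of_ne hB, Function.update_self] at e3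
    have hzV : g.V z := app_V hg (hr _ _ _) (hC i) hz
    rw [hph, phB3, e3] at h3
    obtain ⟨z3, hz3, e4⟩ := (hVX (2 * v) 2 _ _ _ (hVC2 C y0 a y i z hy0K ha hy hzV hC)).mp h3
    rw [hpush, ← hy0, ← hBdef, Function.update_of_ne hiB'.symm, Function.update_self] at hz3
    have hun : g.un y0 (shl g (List.replicate 6 y) (g.hd y0 (C B))) = some z3 := hz3
    have hyy : y = y0 := hg.sound6 y0 hy0K (List.replicate 6 y) (by simp)
      (fun b hb => by rw [List.eq_of_mem_replicate hb]; exact hy) (C B) (hC B)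
      (by rw [hun]; rfl) y (by simp)
    have hz3' : z3 = C B := by
      have h9 := hg.ok6 y0 hy0K (C B) (hC B)
      rw [hyy, h9] at hun
      exact (Option.some.inj hun).symm
    subst hz3'
    rw [← hBdef, regs C q B i z _ _ _ hiB' hi2 hB] at e4
    rw [hph, phB4, e4, run7 g tst r q c hEl hK] at h4
    rw [hpop] at h4
    rw [hph, phB5, run1 g tst r q c hEl hK] at h5
    rw [hph, phB6, run1 g tst r q c hEl hK] at h6
    rw [hph, phB7, run1 g tst r q c hEl hK] at h7
    rw [hph, phB8, run1 g tst r q c hEl hK] at h8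
    have hs' : s' = (Function.update (Function.update C i z) (2 * q)
        (shl g (List.replicate 6 a) (C (2 * q))), A) := by
      rw [← hf9, h8, h7, h6, h5, h4]
    subst hs'
    have hra : ∀ b ∈ List.replicate 6 a, b < g.K := by
      intro b hb
      rw [List.eq_of_mem_replicate hb]
      exact ha
    refine ⟨rfl, ?_, ?_, List.replicate 6 a, by simp, hra, ?_, ?_⟩
    · intro j
      show g.V (Function.update (Function.update C i z) (2 * q)
        (shl g (List.replicate 6 a) (C (2 * q))) j)
      by_cases h9 : j = 2 * q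
      · rw [h9, Function.update_self]
        exact shl_V hg _ hra _ (hC _)
      rw [Function.update_of_ne h9]
      by_cases h10 : j = i
      · rw [h10, Function.update_self]
        exact hzV
      rw [Function.update_of_ne h10]
      exact hC j
    · intro j hj hji
      show Function.update (Function.update C i z) (2 * q)
        (shl g (List.replicate 6 a) (C (2 * q))) j = C j
      rw [Function.update_of_ne (by omega), Function.update_of_ne hji]
    · show Function.update (Function.update C i z) (2 * q)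
        (shl g (List.replicate 6 a) (C (2 * q))) (2 * q) = _
      rw [Function.update_self]
      rfl
    · intro x hx hax
      have hxa : a = x := hax a (by simp)
      subst hxa
      refine ⟨z, ?_, rfl⟩
      have h9 : seg r (botV r q c m) 0 v a = r v a y := by
        rw [hyy, hy0, ← hay]
        rfl
      rw [h9]
      exact hz
  · -- completeness
    intro v i T C A x z hC hi hx hz
    obtain ⟨hiB', hi2⟩ := hiB i hi
    set y0 := blk r q c m (2 * v) (x % 2 ^ c) with hy0
    have hy0K : y0 < g.K := blk_lt hr q c m _ _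
    have hz' : app g tst T (r v x y0) (C i) = some z := hz
    have hzV : g.V z := app_V hg (hr _ _ _) (hC i) hz'
    rw [Nat.add_zero, hBl]
    set C1 : ℕ → Z := Function.update C B (g.hd y0 (C B)) with hC1
    set C2 : ℕ → Z := Function.update (Function.update (Function.update C1 (2 * q)
      (shl g (List.replicate 6 x) (C (2 * q))))
        B (shl g (List.replicate 6 y0) (g.hd y0 (C B)))) i z with hC2
    set C3 : ℕ → Z := Function.update (Function.update C i z) (2 * q)
      (shl g (List.replicate 6 x) (C (2 * q))) with hC3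
    set A1 := A * 2 ^ c + x % 2 ^ c with hA1
    have e1 : Run g tst r q c (sub q (nod v i T) ((q + 2) * m) 0) ((q + 2) * m) (C, A) (C, A1) := by
      rw [hph, phB0, run5 g tst r q c hEl hK]
      exact ⟨x, hx, rfl⟩
    have e2 : Run g tst r q c (sub q (nod v i T) ((q + 2) * m) 1) ((q + 2) * m) (C, A1)
        (C1, A1) := by
      rw [hph, phB1]
      refine (hVX (2 * v) 1 C _ _ hC).mpr ⟨g.hd y0 (C B), ?_, rfl⟩
      rw [hA1, hpush]
      rfl
    have e3 : Run g tst r q c (sub q (nod v i T) ((q + 2) * m) 2) ((q + 2) * m) (C1, A1)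
        (C2, A1) := by
      rw [hph, phB2, run6 g tst r q c hEl hK]
      refine ⟨x, hx, y0, hy0K, ?_, z, ?_, ?_⟩
      · show x % 2 ^ c = A1 % 2 ^ c
        rw [hA1, hpush]
      · show app g tst T (r v x y0) (C1 i) = some z
        rw [hC1, Function.update_of_ne hiB']
        exact hz'
      · show (C2, A1) = (Function.update (Function.update (Function.update C1
          (2 * q) (shl g (List.replicate 6 x) (C1 (2 * q))))
          B (shl g (List.replicate 6 y0) (C1 B))) i z, A1)
        have h9 : C1 (2 * q) = C (2 * q) := by rw [hC1, Function.update_of_ne hB]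
        have h10 : C1 B = g.hd y0 (C B) := by rw [hC1, Function.update_self]
        rw [h9, h10]
    have e4 : Run g tst r q c (sub q (nod v i T) ((q + 2) * m) 3) ((q + 2) * m) (C2, A1)
        (C3, A1) := by
      rw [hph, phB3]
      refine (hVX (2 * v) 2 C2 _ _ (hVC2 C y0 x y0 i z hy0K hx hy0K hzV hC)).mpr ⟨C B, ?_, ?_⟩
      · rw [hA1, hpush, ← hy0, ← hBdef, hC2, Function.update_of_ne hiB'.symm,
          Function.update_self]
        exact hg.ok6 y0 hy0K (C B) (hC B)
      · rw [← hBdef, hC2, hC1, regs C q B i z _ _ _ hiB' hi2 hB]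
    have e5 : Run g tst r q c (sub q (nod v i T) ((q + 2) * m) 4) ((q + 2) * m) (C3, A1)
        (C3, A) := by
      rw [hph, phB4, run7 g tst r q c hEl hK]
      show (C3, A) = (C3, A1 / 2 ^ c)
      rw [hA1, hpop]
    have e6 : ∀ d, phB q (m % 2) v i T d = idle →
        Run g tst r q c (sub q (nod v i T) ((q + 2) * m) d) ((q + 2) * m) (C3, A) (C3, A) := by
      intro d hd
      rw [hph, hd, run1 g tst r q c hEl hK]
    refine ⟨fun d => match d with
      | 0 => (C, A)
      | 1 => (C, A1)
      | 2 => (C1, A1)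
      | 3 => (C2, A1)
      | 4 => (C3, A1)
      | _ => (C3, A), rfl, rfl, ?_⟩
    intro d hd
    interval_cases d
    · exact e1
    · exact e2
    · exact e3
    · exact e4
    · exact e5
    · exact e6 5 rfl
    · exact e6 6 rfl
    · exact e6 7 rfl
    · exact e6 8 rfl

end Pool.Agent.Helper24.CTR
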