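import Pool.Agent.Helper53.CTR.Goals

/-!
# Project CTR (MP_8b4d68_lc), packet CTR-LG (helper24)
-/

namespace Pool.Agent.Helper24.CTR

open Pool.Agent.Helper53.CTR

theorem peel (w u : List Bool) (s n : ℕ) :
    w.drop s = List.replicate n true ++ false :: u ↔
      (Ones w s n ∧ w[s + n]? = some false ∧ u = w.drop (s + n + 1)) := by
  constructor
  · intro h
    have h1 : ∀ i, w[s + i]? = (List.replicate n true ++ false :: u)[i]? := by
      intro i
      rw [← h, List.getElem?_drop]
    refine ⟨?_, ?_, ?_⟩
    · intro i hi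
      rw [h1, List.getElem?_append_left (by rw [List.length_replicate]; exact hi),
        List.getElem?_replicate, if_pos hi]
    · rw [h1, List.getElem?_append_right (by rw [List.length_replicate]), List.length_replicate,
        Nat.sub_self, List.getElem?_cons_zero]
    · have h2 : (w.drop s).drop (n + 1) = w.drop (s + n + 1) := by
        rw [List.drop_drop]
        congr 1
      have h3 : (List.replicate n true ++ false :: u) =
          (List.replicate n true ++ [false]) ++ u := by simp
      rw [← h2, h, h3, List.drop_left']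
      simp
  · rintro ⟨h1, h2, h3⟩
    apply List.ext_getElem?
    intro i
    rw [List.getElem?_drop]
    rcases Nat.lt_trichotomy i n with hi | hi | hi
    · rw [List.getElem?_append_left (by rw [List.length_replicate]; exact hi),
        List.getElem?_replicate, if_pos hi, h1 i hi]
    · rw [hi, List.getElem?_append_right (by rw [List.length_replicate]), List.length_replicate,
        Nat.sub_self, List.getElem?_cons_zero, h2]
    · obtain ⟨j, rfl⟩ : ∃ j, i = n + 1 + j := ⟨i - (n + 1), by omega⟩
      rw [List.getElem?_append_right (by rw [List.length_replicate]; omega),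
        List.length_replicate, show n + 1 + j - n = j + 1 by omega, List.getElem?_cons_succ, h3,
        List.getElem?_drop]
      congr 1
      omega

theorem form_iff (w v : List Bool) (h q b c : ℕ) :
    w = List.replicate h true ++ false :: (List.replicate q true ++ false ::
      (List.replicate b true ++ false :: (List.replicate c true ++ false :: v))) ↔
      (P3 w h q b c ∧ w[h + q + b + 3 + c]? = some false ∧ v = dat w h q b c) := by
  have h0 : w = w.drop 0 := List.drop_zero.symm
  have e1 : (w = List.replicate h true ++ false :: (List.replicate q true ++ false ::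
      (List.replicate b true ++ false :: (List.replicate c true ++ false :: v)))) ↔
      (w.drop 0 = List.replicate h true ++ false :: (List.replicate q true ++ false ::
      (List.replicate b true ++ false :: (List.replicate c true ++ false :: v)))) := by
    rw [List.drop_zero]
  rw [e1, peel]
  constructor
  · rintro ⟨a1, a2, a3⟩
    obtain ⟨b1, b2, b3⟩ := (peel _ _ _ _).1 a3.symm
    obtain ⟨c1, c2, c3⟩ := (peel _ _ _ _).1 b3.symm
    obtain ⟨d1, d2, d3⟩ := (peel _ _ _ _).1 c3.symm
    rw [Nat.zero_add] at a2 b1 b2 c1 c2 d1 d2 d3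
    have i1 : h + 1 + q + 1 = h + q + 2 := by omega
    have i2 : h + q + 2 + b + 1 = h + q + b + 3 := by omega
    have i3 : h + q + b + 3 + c + 1 = h + q + b + c + 4 := by omega
    rw [i1] at c1 c2 d1 d2 d3
    rw [i2] at d1 d2 d3
    rw [i3] at d3
    exact ⟨⟨a1, a2, b1, b2, c1, c2, d1⟩, d2, d3⟩
  · rintro ⟨⟨a1, a2, b1, b2, c1, c2, d1⟩, d2, d3⟩
    have i1 : 0 + h + 1 + q + 1 = h + q + 2 := by omega
    have i2 : 0 + h + 1 + q + 1 + b + 1 = h + q + b + 3 := by omega
    have i3 : 0 + h + 1 + q + 1 + b + 1 + c + 1 = h + q + b + c + 4 := by omega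
    refine ⟨a1, by rw [Nat.zero_add]; exact a2, ?_⟩
    symm
    rw [peel]
    refine ⟨by rw [Nat.zero_add]; exact b1, by rw [Nat.zero_add]; exact b2, ?_⟩
    symm
    rw [peel]
    refine ⟨by rw [i1]; exact c1, by rw [i1]; exact c2, ?_⟩
    symm
    rw [peel]
    exact ⟨by rw [i2]; exact d1, by rw [i2]; exact d2, by rw [i3]; exact d3⟩

theorem gLG : GoalLG := by
  intro ok D hD
  ext w
  constructor
  · rintro ⟨h, q, b, c, v, hh, hq, hb, hc, hD', hl, hr, hw⟩
    obtain ⟨h1, h2, h3⟩ := (form_iff w v h q b c).1 hw
    refine ⟨h, q, b, c, ⟨⟨h1, h2, hh, hq, hb, hc, (hD h q b c).1 hD'⟩, hl⟩, ?_⟩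
    rw [← h3]
    exact hr
  · rintro ⟨h, q, b, c, ⟨⟨h1, h2, hh, hq, hb, hc, hok⟩, hl⟩, hr⟩
    exact ⟨h, q, b, c, dat w h q b c, hh, hq, hb, hc, (hD h q b c).2 hok, hl, hr,
      (form_iff w _ h q b c).2 ⟨h1, h2, rfl⟩⟩

end Pool.Agent.Helper24.CTR
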